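import Pool.Agent.H849.EF.Defs
import Pool.Agent.H849.LM.Defs

/-!
# Local Euler factors: definitions
-/

set_option autoImplicit false

open Module

universe u v

namespace Pool.Agent.H849.LF

open Pool.Agent.Y143 Pool.Agent.H849.EF Pool.Agent.H849.LM

variable {Ω : Type u} [Field Ω] [CharZero Ω] {Γ Γ₁ : Type} {N n q : ℕ}

/-- The characteristic polynomial of the geometric Frobenius on the inertia invariants (the kernel of
the monodromy operator, as inertia acts by `exp (t N)`) of `H^i` of the geometric generic fibre. The
local Euler polynomial `det (1 - T F)` is its reciprocal polynomial. -/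
noncomputable def eulerPoly (Z : SemistableModel.{u, v} Ω Γ n q) (i : ℕ) : Polynomial Ω :=
  charpolyOn (Z.actV i Z.frob) (LinearMap.ker (Z.N i))

/-- The characteristic polynomial of the Frobenius on the middle cohomology `H^(n-a)(Y^(a+1))` of the
stratum of dimension `n - a`. -/
noncomputable def middlePoly (Z : SemistableModel.{u, v} Ω Γ n q) (a : ℕ) : Polynomial Ω :=
  charpolyOn (Z.act a Z.frob) (Z.gr a (n - a))

/-- `N F = q F N` on the cohomology of the geometric generic fibre. -/
def IsTwisted (Z : SemistableModel.{u, v} Ω Γ n q) : Prop :=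
  ∀ i v, Z.N i (Z.actV i Z.frob v) = (q : Ω) • Z.actV i Z.frob (Z.N i v)

/-- The pull-backs commute with the Frobenius. -/
def CommutesWithFrobenius {X : StrataData.{u, v} Ω Γ} {Z : StrataData.{u, v} Ω Γ₁}
    (f : PullBacks X Z) : Prop :=
  ∀ a x, f a (X.act a X.frob x) = Z.act a Z.frob (f a x)

/-- The polynomials `P l` have coefficients in `ℤ` and do not depend on `l`. -/
def IsIntegralIndependent {Λ : Type} {K : Λ → Type u} [∀ l, Field (K l)]
    (P : ∀ l, Polynomial (K l)) : Prop :=
  ∃ R : Polynomial ℤ, ∀ l, P l = R.map (Int.castRingHom (K l))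

end Pool.Agent.H849.LF
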