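import Pool.Agent.H849.LF.Main

/-!
# Integrality and independence
-/

set_option autoImplicit false

open Module Polynomial

universe u v

namespace Pool.Agent.H849.LF

open Pool.Agent.Y143 Pool.Agent.H849.EF Pool.Agent.H849.LM Pool.Agent.H849.SEC

section

variable {Λ : Type} {K : Λ → Type u} [∀ l, Field (K l)] [∀ l, CharZero (K l)]

theorem IsIntegralIndependent.of_mul {P P' A A' : ∀ l, Polynomial (K l)} (hA' : ∀ l, (A' l).Monic)
    (h1 : IsIntegralIndependent A) (h2 : IsIntegralIndependent A')
    (h3 : IsIntegralIndependent P') (h : ∀ l, P l * A' l = P' l * A l) :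
    IsIntegralIndependent P := by
  obtain ⟨R, hR⟩ := h1
  obtain ⟨R', hR'⟩ := h2
  obtain ⟨S, hS⟩ := h3
  refine ⟨(S * R) /ₘ R', fun l => ?_⟩
  have hinj : Function.Injective (Int.castRingHom (K l)) := Int.cast_injective
  have hm : R'.Monic := Polynomial.monic_of_injective hinj (by rw [← hR' l]; exact hA' l)
  rw [Polynomial.map_divByMonic _ hm, Polynomial.map_mul, ← hS l, ← hR l, ← hR' l, ← h l, mul_comm,
    Polynomial.mul_divByMonic_cancel_left _ (hA' l)]

theorem IsIntegralIndependent.prod {m : ℕ} {P : ℕ → ∀ l, Polynomial (K l)}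
    (h : ∀ a < m, IsIntegralIndependent (P a)) :
    IsIntegralIndependent fun l => ∏ a ∈ Finset.range m, P a l := by
  classical
  choose! R hR using h
  refine ⟨∏ a ∈ Finset.range m, R a, fun l => ?_⟩
  rw [Polynomial.map_prod]
  exact Finset.prod_congr rfl fun a ha => hR a (Finset.mem_range.1 ha) l

end

section

variable {Ω : Type u} [Field Ω] [CharZero Ω] {Γ₁ : Type} {n q : ℕ}

lemma middlePoly_monic (Z : SemistableModel.{u, v} Ω Γ₁ n q) (a : ℕ) : (middlePoly Z a).Monic :=
  charpolyOn_monic' fun x hx => Z.act_gr _ _ _ _ hx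

lemma prod_monic (Z : SemistableModel.{u, v} Ω Γ₁ n q) :
    (∏ a ∈ Finset.range (n + 1), middlePoly Z a).Monic :=
  Polynomial.monic_prod_of_monic _ _ fun a _ => middlePoly_monic Z a

end

end Pool.Agent.H849.LF
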