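import Pool.Agent.H849.EF.Lin

/-!
# Characteristic polynomials and correspondences between subquotients
-/

set_option autoImplicit false

open Module Polynomial

universe u v

namespace Pool.Agent.H849.LF

open Pool.Agent.H849.EF

section

variable {Ω : Type u} [Field Ω] {V V' : Type v} [AddCommGroup V] [Module Ω V]
  [FiniteDimensional Ω V] [AddCommGroup V'] [Module Ω V'] [FiniteDimensional Ω V']

theorem charpolyOn_monic' {F : Module.End Ω V} {S : Submodule Ω V} (hS : ∀ x ∈ S, F x ∈ S) :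
    (charpolyOn F S).Monic := by
  rw [charpolyOn_eq hS]
  exact LinearMap.charpoly_monic _

theorem charpolyOn_ne {F : Module.End Ω V} {S : Submodule Ω V} (hS : ∀ x ∈ S, F x ∈ S) :
    charpolyOn F S ≠ 0 := (charpolyOn_monic' hS).ne_zero

/-- Exact sequences for a linear map. -/
theorem charpolyOn_map [Infinite Ω] {S : Submodule Ω V} {F : Module.End Ω V} {F' : Module.End Ω V'}
    (π : V →ₗ[Ω] V') (hS : ∀ x ∈ S, F x ∈ S) (hc : ∀ x, π (F x) = F' (π x)) :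
    charpolyOn F S = charpolyOn F (S ⊓ LinearMap.ker π) * charpolyOn F' (S.map π) := by
  refine charpolyOn_graph (T := LinearMap.graph π) hS ?_ inf_le_left ?_ ?_ ?_ ?_
  · rintro _ ⟨x, hx, rfl⟩
    exact ⟨F x, hS x hx, hc x⟩
  · intro v hv
    exact ⟨π v, ⟨v, hv, rfl⟩, rfl⟩
  · rintro _ ⟨x, hx, rfl⟩
    exact ⟨x, hx, rfl⟩
  · intro v hv x _ hvx
    have h1 : x = π v := hvx
    rw [h1, Submodule.mem_inf, LinearMap.mem_ker]
    exact ⟨fun h => h.2, fun h => ⟨hv, h⟩⟩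
  · intro v x hvx
    have h1 : x = π v := hvx
    show F' x = π (F v)
    rw [h1, hc]

/-- If the correspondence `T` identifies `S / S₀` with `A / B`, the characteristic polynomials are
related. -/
theorem charpolyOn_quot [Infinite Ω] {T : Submodule Ω (V × V')} {S S₀ : Submodule Ω V}
    {A B : Submodule Ω V'} {F : Module.End Ω V} {F' : Module.End Ω V'}
    (hS : ∀ x ∈ S, F x ∈ S) (hS₀ : ∀ x ∈ S₀, F x ∈ S₀) (hA : ∀ x ∈ A, F' x ∈ A)
    (hB : ∀ x ∈ B, F' x ∈ B) (hle : S₀ ≤ S) (hle' : B ≤ A) (hl : ∀ v ∈ S, ∃ x ∈ A, (v, x) ∈ T)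
    (hr : ∀ x ∈ A, ∃ v ∈ S, (v, x) ∈ T) (hk : ∀ v ∈ S, ∀ x ∈ A, (v, x) ∈ T → (v ∈ S₀ ↔ x ∈ B))
    (hc : ∀ v x, (v, x) ∈ T → (F v, F' x) ∈ T) :
    charpolyOn F S * charpolyOn F' B = charpolyOn F S₀ * charpolyOn F' A := by
  set G : Module.End Ω (V × V') := LinearMap.prodMap F F' with hG
  have hTs : ∀ x ∈ T ⊓ S.prod A, G x ∈ T ⊓ S.prod A := by
    rintro ⟨v, x⟩ ⟨h1, h2, h3⟩
    exact ⟨hc v x h1, hS v h2, hA x h3⟩
  have hTs' : ∀ x ∈ T ⊓ S₀.prod B, G x ∈ T ⊓ S₀.prod B := by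
    rintro ⟨v, x⟩ ⟨h1, h2, h3⟩
    exact ⟨hc v x h1, hS₀ v h2, hB x h3⟩
  have e1 := charpolyOn_map (LinearMap.fst Ω V V') (F' := F) hTs (fun _ => rfl)
  have e2 := charpolyOn_map (LinearMap.snd Ω V V') (F' := F') hTs (fun _ => rfl)
  have e3 := charpolyOn_map (LinearMap.fst Ω V V') (F' := F) hTs' (fun _ => rfl)
  have e4 := charpolyOn_map (LinearMap.snd Ω V V') (F' := F') hTs' (fun _ => rfl)
  have m1 : (T ⊓ S.prod A).map (LinearMap.fst Ω V V') = S := by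
    apply le_antisymm
    · rintro _ ⟨⟨v, x⟩, ⟨_, h2, _⟩, rfl⟩
      exact h2
    · intro v hv
      obtain ⟨x, hx, hvx⟩ := hl v hv
      exact ⟨(v, x), ⟨hvx, hv, hx⟩, rfl⟩
  have m2 : (T ⊓ S.prod A).map (LinearMap.snd Ω V V') = A := by
    apply le_antisymm
    · rintro _ ⟨⟨v, x⟩, ⟨_, _, h3⟩, rfl⟩
      exact h3
    · intro x hx
      obtain ⟨v, hv, hvx⟩ := hr x hx
      exact ⟨(v, x), ⟨hvx, hv, hx⟩, rfl⟩
  have m3 : (T ⊓ S₀.prod B).map (LinearMap.fst Ω V V') = S₀ := by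
    apply le_antisymm
    · rintro _ ⟨⟨v, x⟩, ⟨_, h2, _⟩, rfl⟩
      exact h2
    · intro v hv
      obtain ⟨x, hx, hvx⟩ := hl v (hle hv)
      exact ⟨(v, x), ⟨hvx, hv, (hk v (hle hv) x hx hvx).1 hv⟩, rfl⟩
  have m4 : (T ⊓ S₀.prod B).map (LinearMap.snd Ω V V') = B := by
    apply le_antisymm
    · rintro _ ⟨⟨v, x⟩, ⟨_, _, h3⟩, rfl⟩
      exact h3
    · intro x hx
      obtain ⟨v, hv, hvx⟩ := hr x (hle' hx)
      exact ⟨(v, x), ⟨hvx, (hk v hv x (hle' hx) hvx).2 hx, hx⟩, rfl⟩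
  have k1 : T ⊓ S.prod A ⊓ LinearMap.ker (LinearMap.fst Ω V V') =
      T ⊓ S₀.prod B ⊓ LinearMap.ker (LinearMap.fst Ω V V') := by
    apply le_antisymm
    · rintro ⟨v, x⟩ ⟨⟨h1, h2, h3⟩, h4⟩
      have h5 : v = 0 := h4
      subst h5
      exact ⟨⟨h1, S₀.zero_mem, (hk 0 S.zero_mem x h3 h1).1 S₀.zero_mem⟩, h4⟩
    · exact inf_le_inf_right _ (inf_le_inf_left _ (Submodule.prod_mono hle hle'))
  have k2 : T ⊓ S.prod A ⊓ LinearMap.ker (LinearMap.snd Ω V V') =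
      T ⊓ S₀.prod B ⊓ LinearMap.ker (LinearMap.snd Ω V V') := by
    apply le_antisymm
    · rintro ⟨v, x⟩ ⟨⟨h1, h2, h3⟩, h4⟩
      have h5 : x = 0 := h4
      subst h5
      exact ⟨⟨h1, (hk v h2 0 A.zero_mem h1).2 B.zero_mem, B.zero_mem⟩, h4⟩
    · exact inf_le_inf_right _ (inf_le_inf_left _ (Submodule.prod_mono hle hle'))
  rw [m1] at e1
  rw [m2] at e2
  rw [m3, ← k1] at e3
  rw [m4, ← k2] at e4
  set a := charpolyOn G (T ⊓ S.prod A ⊓ LinearMap.ker (LinearMap.fst Ω V V')) with ha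
  set b := charpolyOn G (T ⊓ S.prod A ⊓ LinearMap.ker (LinearMap.snd Ω V V')) with hb
  have ha0 : a ≠ 0 := by
    apply charpolyOn_ne
    rintro x ⟨h1, h2⟩
    refine ⟨hTs x h1, ?_⟩
    rw [SetLike.mem_coe, LinearMap.mem_ker] at h2 ⊢
    show F (LinearMap.fst Ω V V' x) = 0
    rw [h2, map_zero]
  have hb0 : b ≠ 0 := by
    apply charpolyOn_ne
    rintro x ⟨h1, h2⟩
    refine ⟨hTs x h1, ?_⟩
    rw [SetLike.mem_coe, LinearMap.mem_ker] at h2 ⊢
    show F' (LinearMap.snd Ω V V' x) = 0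
    rw [h2, map_zero]
  have e5 : a * charpolyOn F S = b * charpolyOn F' A := by rw [← e1, e2]
  have e6 : a * charpolyOn F S₀ = b * charpolyOn F' B := by rw [← e3, e4]
  apply mul_left_cancel₀ (mul_ne_zero ha0 hb0)
  calc a * b * (charpolyOn F S * charpolyOn F' B) =
      (a * charpolyOn F S) * (b * charpolyOn F' B) := by ring
    _ = (b * charpolyOn F' A) * (a * charpolyOn F S₀) := by rw [e5, e6]
    _ = a * b * (charpolyOn F S₀ * charpolyOn F' A) := by ring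

end

end Pool.Agent.H849.LF
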