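import Pool.Agent.H849.LF.Rel
import Pool.Agent.H849.LF.Defs
import Pool.Agent.H849.LM.Main

/-!
# The local Euler factors of two Lefschetz maps
-/

set_option autoImplicit false

open Module Polynomial

universe u v

namespace Pool.Agent.H849.LF

open Pool.Agent.Y143 Pool.Agent.H849.EF Pool.Agent.H849.LM Pool.Agent.H849.SEC

variable {Ω : Type u} [Field Ω] [CharZero Ω] {Γ Γ₁ Γ₂ : Type} {N n q : ℕ}

section van

variable {X : SpecialFibre.{u, v} Ω Γ N q} {Z : SpecialFibre.{u, v} Ω Γ₁ n q}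
  {f : PullBacks X.toStrataData Z.toStrataData} (hf : IsLefschetzMap n f)

include hf

theorem van_outside {i : ℕ} (hi : i ≠ n) (w : ℤ) : kerCoc Z i w ⊓ vanC f = ⊥ := by
  rw [eq_bot_iff]
  rintro z ⟨⟨⟨hz, -⟩, -⟩, hv⟩
  exact isVan_zero hf (r := i - w) (w := w) (by
    intro h
    apply hi
    have : (i : ℤ) = n := by linarith
    exact_mod_cast this) hz hv

/-- On the vanishing part the image under `N` of an element of `kerCoc` is zero. -/
lemma cut_zero {i : ℤ} {w : ℤ} {z : Z.C} (hz : z ∈ kerCoc Z i w) (hv : IsVan f z) :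
    Z.cut (i - w + 2) z = 0 :=
  bd_van hf hz.2 (cut_van hf _ hv)

theorem van_above {w : ℤ} (hw : (n : ℤ) < w) : kerCoc Z n w ⊓ vanC f = ⊥ := by
  rw [eq_bot_iff]
  rintro z ⟨hz, hv⟩
  have h0 := cut_zero hf hz hv
  rw [Submodule.mem_bot]
  funext a
  by_cases h : InColumn ((n : ℤ) - w) a
  · have h1 : InColumn ((n : ℤ) - w + 2) a := by
      obtain ⟨h2, h3⟩ := h
      refine ⟨?_, by omega⟩
      rw [abs_of_neg (by omega)] at h2
      rw [abs_le]
      constructor <;> omega
    have h2 := congrFun h0 a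
    rwa [Z.cut_of h1] at h2
  · exact (hz.1.1 a).2 h

theorem van_column (hF : ∀ a x, f a (X.act a X.frob x) = Z.act a Z.frob (f a x)) {w : ℤ} {a : ℕ}
    (haw : (a : ℤ) + w = n) :
    charpolyOn (Z.actC (n - w) Z.frob) (kerCoc Z n w ⊓ vanC f) =
      charpolyOn (Z.act a Z.frob) (Z.gr a w ⊓ van f a) := by
  have hinf : Infinite Ω := inferInstance
  have hwn : (n : ℤ) - w = a := by omega
  have h1 := charpolyOn_map (LinearMap.proj a : Z.C →ₗ[Ω] Z.H a) (S := kerCoc Z n w ⊓ vanC f)
    (F := Z.actC (n - w) Z.frob) (F' := Z.act a Z.frob)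
    (fun x hx => ⟨kerCoc_stable _ _ _ _ hx.1, isVan_actC hF _ hx.2⟩) (by
      intro x
      show Z.actC (n - w) Z.frob x a = Z.act a Z.frob (x a)
      rw [Z.actC_apply, hwn, sub_self, Int.zero_ediv, zpow_zero, Units.val_one, one_smul])
  have h2 : kerCoc Z n w ⊓ vanC f ⊓ LinearMap.ker (LinearMap.proj a : Z.C →ₗ[Ω] Z.H a) = ⊥ := by
    rw [eq_bot_iff]
    rintro z ⟨⟨hz, hv⟩, hza⟩
    have h0 := cut_zero hf hz hv
    have hza' : z a = 0 := hza
    rw [Submodule.mem_bot]
    funext b
    by_cases hb : b = a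
    · rw [hb, hza']
      rfl
    · by_cases h : InColumn ((n : ℤ) - w) b
      · have h3 : InColumn ((n : ℤ) - w + 2) b := by
          obtain ⟨h4, h5⟩ := h
          rw [hwn] at h4 h5 ⊢
          rw [abs_of_nonneg (Int.natCast_nonneg a)] at h4
          refine ⟨?_, by omega⟩
          rw [abs_of_nonneg (by omega)]
          obtain ⟨k, hk⟩ := h5
          omega
        have h4 := congrFun h0 b
        rwa [Z.cut_of h3] at h4
      · exact (hz.1.1 b).2 h
  have h3 : (kerCoc Z n w ⊓ vanC f).map (LinearMap.proj a : Z.C →ₗ[Ω] Z.H a) =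
      Z.gr a w ⊓ van f a := by
    apply le_antisymm
    · rintro _ ⟨z, ⟨hz, hv⟩, rfl⟩
      refine ⟨?_, hv a⟩
      have h4 := (hz.1.1 a).1
      rwa [show w + ((n : ℤ) - w) - a = w by omega] at h4
    · rintro x ⟨hx, hv⟩
      have hE : (Pi.single a x : Z.C) ∈ Z.E₁ (n - w) w := by
        intro b
        by_cases hb : b = a
        · subst hb
          rw [Pi.single_eq_same]
          refine ⟨by rwa [show w + ((n : ℤ) - w) - b = w by omega], fun hc => absurd ?_ hc⟩
          rw [hwn]
          exact ⟨by rw [abs_of_nonneg (Int.natCast_nonneg b)], by rw [sub_self]; exact dvd_zero _⟩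
        · rw [Pi.single_eq_of_ne hb]
          exact ⟨Submodule.zero_mem _, fun _ => rfl⟩
      have hV : IsVan f (Pi.single a x : Z.C) := by
        intro b
        by_cases hb : b = a
        · subst hb
          rw [Pi.single_eq_same]
          exact hv
        · rw [Pi.single_eq_of_ne hb]
          exact Submodule.zero_mem _
      refine ⟨Pi.single a x, ⟨⟨⟨hE, ?_⟩, ?_⟩, hV⟩, ?_⟩
      · rw [SetLike.mem_coe, LinearMap.mem_ker]
        exact isVan_zero hf (r := (n : ℤ) - w + 1) (w := w) (by omega) (Z.diff_mem hE)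
          (isVan_diff hf _ hV)
      · rw [SetLike.mem_coe, Submodule.mem_comap]
        have h4 : Z.cut ((n : ℤ) - w + 2) (Pi.single a x : Z.C) = 0 := by
          funext b
          by_cases hc : InColumn ((n : ℤ) - w + 2) b
          · rw [Z.cut_of hc]
            by_cases hb : b = a
            · exfalso
              subst hb
              have h5 := (le_abs_self _).trans hc.1
              omega
            · rw [Pi.single_eq_of_ne hb]
              rfl
          · rw [Z.cut_of_not hc]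
            rfl
        rw [h4]
        exact Submodule.zero_mem _
      · show (Pi.single a x : Z.C) a = x
        rw [Pi.single_eq_same]
  rw [h1, h2, h3, charpolyOn_bot, one_mul]

end van

section neg

variable (Z : SemistableModel.{u, v} Ω Γ₁ n q)

/-- There are no vectors of negative weight. -/
theorem W_neg (i : ℕ) {w : ℤ} (hw : w < 0) : Z.W i w = ⊥ := by
  obtain ⟨b, hb⟩ := Z.W_bot i
  have key : ∀ k : ℕ, Z.W i w ≤ Z.W i (w - k) := by
    intro k
    induction k with
    | zero => rw [Nat.cast_zero, sub_zero]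
    | succ k ih =>
      refine le_trans ih ?_
      intro v hv
      obtain ⟨x, hx⟩ := Z.sp_left i _ v hv
      have h1 : x = 0 := by
        funext a
        have h2 := (Z.sp_mem i _ _ _ hx).2.1 a
        by_cases hc : InColumn ((i : ℤ) - (w - k)) a
        · have h3 := (le_abs_self _).trans hc.1
          have h4 := h2.1
          rw [Z.gr_eq_bot a _ (Or.inl (by omega)), Submodule.mem_bot] at h4
          exact h4
        · exact h2.2 hc
      have h2 := (Z.sp_ker i _ _ _ hx).2 (by rw [h1]; exact Submodule.zero_mem _)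
      exact Z.W_cast (by push_cast; ring) h2
  rw [eq_bot_iff]
  have h2 := (key ((w - b).toNat)).trans (Z.W_mono i (show w - (((w - b).toNat : ℕ) : ℤ) ≤ b by
    have := Int.self_le_toNat (w - b)
    omega))
  rwa [hb] at h2

/-- The factor of the weight `w`. -/
noncomputable def mid (i w : ℕ) : Polynomial Ω :=
  if i = n ∧ w ≤ n then middlePoly Z (n - w) else 1

end neg

section compare

variable {X : SpecialFibre.{u, v} Ω Γ N q} {Z : SemistableModel.{u, v} Ω Γ₁ n q}
  {Z' : SemistableModel.{u, v} Ω Γ₂ n q} {f : PullBacks X.toStrataData Z.toStrataData}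
  {f' : PullBacks X.toStrataData Z'.toStrataData}

/-- The auxiliary factors. -/
noncomputable def stepA (f : PullBacks X.toStrataData Z.toStrataData) (i w : ℕ) : Polynomial Ω :=
  charpolyOn (X.actC ((i : ℤ) - w) X.frob) (bdMod X (LinearMap.ker (fC f)) (i - w) w) *
    if i = n ∧ w ≤ n then charpolyOn (X.act (n - w) X.frob) (X.gr (n - w) w) else 1

/-- The auxiliary factors. -/
noncomputable def stepB (f : PullBacks X.toStrataData Z.toStrataData) (i w : ℕ) : Polynomial Ω :=
  charpolyOn (X.actC ((i : ℤ) - w) X.frob) (kerCocMod X (LinearMap.ker (fC f)) i w) *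
    if i = n ∧ w ≤ n then
      charpolyOn (X.act (n - w) X.frob) (X.gr (n - w) w ⊓ LinearMap.ker (f (n - w))) else 1

section one

variable (hf : IsLefschetzMap n f) (hF : CommutesWithFrobenius f)

include hf hF

omit hf in
lemma stepA_ne (i w : ℕ) : stepA f i w ≠ 0 := by
  refine mul_ne_zero (charpolyOn_ne ?_) ?_
  · rintro x ⟨hx, hx'⟩
    refine ⟨X.actC_mem _ hx, ?_⟩
    obtain ⟨b, hb, s, hs, rfl⟩ := Submodule.mem_sup.1 hx'
    rw [map_add]
    exact Submodule.add_mem_sup (X.actC_bd _ _ _ hb) (ker_actC hF _ hs)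
  · split_ifs
    · exact charpolyOn_ne fun x hx => X.act_gr _ _ _ _ hx
    · exact one_ne_zero

omit hf in
lemma stepB_ne (i w : ℕ) : stepB f i w ≠ 0 := by
  refine mul_ne_zero (charpolyOn_ne ?_) ?_
  · rintro x ⟨⟨hx, hx'⟩, hx''⟩
    refine ⟨⟨X.actC_mem _ hx, ?_⟩, ?_⟩
    · rw [SetLike.mem_coe, Submodule.mem_comap, ← X.diff_actC]
      exact ker_actC hF _ hx'
    · rw [SetLike.mem_coe, Submodule.mem_comap] at hx'' ⊢
      rw [X.cut_actC]
      obtain ⟨b, hb, s, hs, hbs⟩ := Submodule.mem_sup.1 hx''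
      rw [← hbs, map_add]
      refine Submodule.add_mem_sup ?_ (ker_actC hF _ hs)
      have h2 := X.actC_bd ((i : ℤ) - (w - 2)) (w - 2) X.frob hb
      have h3 := X.actC_shift ((i : ℤ) - w) (-1) X.frob b
      rw [show (i : ℤ) - w - 2 * -1 = i - (w - 2) by ring] at h3
      rw [h3] at h2
      exact (Submodule.smul_mem_iff _ (Units.ne_zero _)).1 h2
  · split_ifs
    · apply charpolyOn_ne
      rintro x ⟨hx, hx'⟩
      refine ⟨X.act_gr _ _ _ _ hx, ?_⟩
      rw [SetLike.mem_coe, LinearMap.mem_ker] at hx' ⊢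
      rw [hF, hx', map_zero]
    · exact one_ne_zero

/-- The contribution of the weight `w`, in terms of `X` and of the middle cohomology of the strata. -/
theorem one_side [IsAlgClosed Ω] (hq : 1 < q) (hZ : IsTwisted Z) (i w : ℕ) :
    charpolyOn (Z.actV i Z.frob) (kerW Z i w) * stepA f i w =
      charpolyOn (Z.actV i Z.frob) (kerW Z i ((w : ℤ) - 1)) * mid Z i w * stepB f i w := by
  have hinf : Infinite Ω := inferInstance
  have h1 := kerW_step (Z := Z) (i := i) (hZ i) hq (w : ℤ)
  have h2 := bd_eq (X := X) (Z := Z.toSpecialFibre) hf hF ((i : ℤ) - w) w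
  have h3 := kerCoc_eq (X := X) (Z := Z.toSpecialFibre) hf hF i w
  have he : charpolyOn (X.actC ((i : ℤ) - w) X.frob) (X.E₁ (i - w) w ⊓ LinearMap.ker (fC f)) ≠ 0 := by
    apply charpolyOn_ne
    rintro x ⟨hx, hx'⟩
    exact ⟨X.actC_mem _ hx, ker_actC hF _ hx'⟩
  have h4 : charpolyOn (Z.actC ((i : ℤ) - w) Z.frob) (kerCoc Z.toSpecialFibre i w ⊓ vanC f) *
      (if i = n ∧ w ≤ n then charpolyOn (X.act (n - w) X.frob) (X.gr (n - w) w) else 1) =
      mid Z i w * (if i = n ∧ w ≤ n then
        charpolyOn (X.act (n - w) X.frob) (X.gr (n - w) w ⊓ LinearMap.ker (f (n - w))) else 1) := by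
    by_cases h : i = n ∧ w ≤ n
    · obtain ⟨rfl, hw⟩ := h
      have h5 := van_column hf hF (w := (w : ℤ)) (a := i - w) (by omega)
      have h6 := middle_eq hf hF (i - w) w
      rw [mid, if_pos ⟨rfl, hw⟩, if_pos ⟨rfl, hw⟩, if_pos ⟨rfl, hw⟩, h5, middlePoly, ← h6]
      rw [show ((i : ℤ) - ((i - w : ℕ) : ℤ)) = w by omega]
    · rw [mid, if_neg h, if_neg h, if_neg h, mul_one, mul_one]
      have h7 : kerCoc Z.toSpecialFibre i w ⊓ vanC f = ⊥ := by
        by_cases hi : i = n
        · subst hi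
          exact van_above hf (by
            have : ¬ w ≤ i := fun hw => h ⟨rfl, hw⟩
            omega)
        · exact van_outside hf hi w
      rw [h7, charpolyOn_bot]
  rw [stepA, stepB]
  set k := charpolyOn (Z.actV i Z.frob) (kerW Z i w)
  set k₁ := charpolyOn (Z.actV i Z.frob) (kerW Z i ((w : ℤ) - 1))
  set bd := charpolyOn (Z.actC ((i : ℤ) - w) Z.frob) (Z.coboundaries (i - w) w)
  set kc := charpolyOn (Z.actC ((i : ℤ) - w) Z.frob) (kerCoc Z.toSpecialFibre i w)
  set e := charpolyOn (X.actC ((i : ℤ) - w) X.frob) (X.E₁ (i - w) w ⊓ LinearMap.ker (fC f))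
  set V := charpolyOn (Z.actC ((i : ℤ) - w) Z.frob) (kerCoc Z.toSpecialFibre i w ⊓ vanC f)
  set D := charpolyOn (X.actC ((i : ℤ) - w) X.frob) (bdMod X (LinearMap.ker (fC f)) (i - w) w)
  set M := charpolyOn (X.actC ((i : ℤ) - w) X.frob) (kerCocMod X (LinearMap.ker (fC f)) i w)
  set g := (if i = n ∧ w ≤ n then charpolyOn (X.act (n - w) X.frob) (X.gr (n - w) w) else 1)
  set g' := (if i = n ∧ w ≤ n then
        charpolyOn (X.act (n - w) X.frob) (X.gr (n - w) w ⊓ LinearMap.ker (f (n - w))) else 1)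
  calc k * (D * g) = k * bd * e * g := by rw [← h2]; ring
    _ = k₁ * (kc * e) * g := by rw [h1]; ring
    _ = k₁ * M * (V * g) := by rw [h3]; ring
    _ = k₁ * mid Z i w * (M * g') := by rw [h4]; ring

end one

lemma kerW_ne (hZ : IsTwisted Z) (i : ℕ) (w : ℤ) :
    charpolyOn (Z.actV i Z.frob) (kerW Z i w) ≠ 0 := by
  have hfin := Pool.Agent.R942.WB.finite_V Z i
  exact charpolyOn_ne fun x hx => kerW_stable (hZ i) hx

lemma step_eq (h : HaveSameKernels f f') (i w : ℕ) :
    stepA f i w = stepA f' i w ∧ stepB f i w = stepB f' i w := by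
  unfold stepA stepB
  rw [ker_fC_eq h, h (n - w)]
  exact ⟨rfl, rfl⟩

/-- The comparison of the contributions of the weight `w`. -/
theorem two_sides [IsAlgClosed Ω] (hf : IsLefschetzMap n f) (hf' : IsLefschetzMap n f')
    (hF : CommutesWithFrobenius f) (hF' : CommutesWithFrobenius f') (h : HaveSameKernels f f')
    (hq : 1 < q) (hZ : IsTwisted Z) (hZ' : IsTwisted Z') (i w : ℕ) :
    charpolyOn (Z.actV i Z.frob) (kerW Z i w) *
        charpolyOn (Z'.actV i Z'.frob) (kerW Z' i ((w : ℤ) - 1)) * mid Z' i w =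
      charpolyOn (Z.actV i Z.frob) (kerW Z i ((w : ℤ) - 1)) *
        charpolyOn (Z'.actV i Z'.frob) (kerW Z' i w) * mid Z i w := by
  have h1 := one_side hf hF hq hZ i w
  have h2 := one_side hf' hF' hq hZ' i w
  rw [← (step_eq h i w).1, ← (step_eq h i w).2] at h2
  have h3 := stepA_ne hF i w
  have h4 := stepB_ne hF i w
  set k := charpolyOn (Z.actV i Z.frob) (kerW Z i w)
  set k₁ := charpolyOn (Z.actV i Z.frob) (kerW Z i ((w : ℤ) - 1))
  set k' := charpolyOn (Z'.actV i Z'.frob) (kerW Z' i w)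
  set k'₁ := charpolyOn (Z'.actV i Z'.frob) (kerW Z' i ((w : ℤ) - 1))
  apply mul_right_cancel₀ (mul_ne_zero h3 h4)
  calc k * k'₁ * mid Z' i w * (stepA f i w * stepB f i w) =
      (k * stepA f i w) * (k'₁ * mid Z' i w * stepB f i w) := by ring
    _ = (k₁ * mid Z i w * stepB f i w) * (k' * stepA f i w) := by rw [h1, h2]
    _ = k₁ * k' * mid Z i w * (stepA f i w * stepB f i w) := by ring

/-- The comparison of the vectors of weight at most `w`. -/
theorem weights_le [IsAlgClosed Ω] (hf : IsLefschetzMap n f) (hf' : IsLefschetzMap n f')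
    (hF : CommutesWithFrobenius f) (hF' : CommutesWithFrobenius f') (h : HaveSameKernels f f')
    (hq : 1 < q) (hZ : IsTwisted Z) (hZ' : IsTwisted Z') (i w : ℕ) :
    charpolyOn (Z.actV i Z.frob) (kerW Z i ((w : ℤ) - 1)) *
        ∏ k ∈ Finset.range w, mid Z' i k =
      charpolyOn (Z'.actV i Z'.frob) (kerW Z' i ((w : ℤ) - 1)) *
        ∏ k ∈ Finset.range w, mid Z i k := by
  induction w with
  | zero =>
    have hfin := Pool.Agent.R942.WB.finite_V Z i
    have hfin' := Pool.Agent.R942.WB.finite_V Z' i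
    have h1 : kerW Z i (((0 : ℕ) : ℤ) - 1) = ⊥ := by
      rw [kerW, W_neg Z i (by norm_num), inf_bot_eq]
    have h2 : kerW Z' i (((0 : ℕ) : ℤ) - 1) = ⊥ := by
      rw [kerW, W_neg Z' i (by norm_num), inf_bot_eq]
    rw [h1, h2, charpolyOn_bot, charpolyOn_bot, Finset.prod_range_zero, Finset.prod_range_zero]
  | succ w ih =>
    have h1 := two_sides hf hf' hF hF' h hq hZ hZ' i w
    rw [Finset.prod_range_succ, Finset.prod_range_succ]
    have e : (((w + 1 : ℕ) : ℤ) - 1) = w := by push_cast; ring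
    rw [e]
    set k := charpolyOn (Z.actV i Z.frob) (kerW Z i w)
    set k₁ := charpolyOn (Z.actV i Z.frob) (kerW Z i ((w : ℤ) - 1)) with hk₁
    set k' := charpolyOn (Z'.actV i Z'.frob) (kerW Z' i w)
    set k'₁ := charpolyOn (Z'.actV i Z'.frob) (kerW Z' i ((w : ℤ) - 1)) with hk'₁
    have h3 : k₁ ≠ 0 := kerW_ne hZ i _
    have h4 : k'₁ ≠ 0 := kerW_ne hZ' i _
    apply mul_right_cancel₀ h4
    calc k * ((∏ k ∈ Finset.range w, mid Z' i k) * mid Z' i w) * k'₁ =
        (k * k'₁ * mid Z' i w) * ∏ k ∈ Finset.range w, mid Z' i k := by ring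
      _ = k' * mid Z i w * (k₁ * ∏ k ∈ Finset.range w, mid Z' i k) := by rw [h1]; ring
      _ = k' * ((∏ k ∈ Finset.range w, mid Z i k) * mid Z i w) * k'₁ := by rw [ih]; ring

lemma prod_mid (Z : SemistableModel.{u, v} Ω Γ₁ n q) (i : ℕ) {w : ℕ} (hw : n < w) :
    ∏ k ∈ Finset.range w, mid Z i k =
      if i = n then ∏ a ∈ Finset.range (n + 1), middlePoly Z a else 1 := by
  split_ifs with hi
  · subst hi
    rw [← Finset.prod_subset (Finset.range_mono (show i + 1 ≤ w by omega))]
    · rw [← Finset.prod_range_reflect]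
      refine Finset.prod_congr rfl fun k hk => ?_
      rw [Finset.mem_range] at hk
      rw [mid, if_pos ⟨rfl, by omega⟩]
      congr 1
      omega
    · intro k _ hk
      rw [Finset.mem_range] at hk
      rw [mid, if_neg (fun h => hk (by omega))]
  · refine Finset.prod_eq_one fun k _ => ?_
    rw [mid, if_neg (fun h => hi h.1)]

/-- The comparison of the local Euler factors. -/
theorem main [IsAlgClosed Ω] (hf : IsLefschetzMap n f) (hf' : IsLefschetzMap n f')
    (hF : CommutesWithFrobenius f) (hF' : CommutesWithFrobenius f') (h : HaveSameKernels f f')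
    (hq : 1 < q) (hZ : IsTwisted Z) (hZ' : IsTwisted Z') (i : ℕ) :
    eulerPoly Z i * (if i = n then ∏ a ∈ Finset.range (n + 1), middlePoly Z' a else 1) =
      eulerPoly Z' i * (if i = n then ∏ a ∈ Finset.range (n + 1), middlePoly Z a else 1) := by
  obtain ⟨t, ht⟩ := Z.W_top i
  obtain ⟨t', ht'⟩ := Z'.W_top i
  set w : ℕ := max (max t.toNat t'.toNat) n + 1 with hw
  have h1 := weights_le hf hf' hF hF' h hq hZ hZ' i w
  have e1 : kerW Z i ((w : ℤ) - 1) = LinearMap.ker (Z.N i) := by
    rw [kerW, inf_eq_left]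
    have h2 : t ≤ (w : ℤ) - 1 := by
      have := Int.self_le_toNat t
      omega
    exact le_top.trans (by rw [← ht]; exact Z.W_mono i h2)
  have e2 : kerW Z' i ((w : ℤ) - 1) = LinearMap.ker (Z'.N i) := by
    rw [kerW, inf_eq_left]
    have h2 : t' ≤ (w : ℤ) - 1 := by
      have := Int.self_le_toNat t'
      omega
    exact le_top.trans (by rw [← ht']; exact Z'.W_mono i h2)
  rw [e1, e2, prod_mid Z i (by omega), prod_mid Z' i (by omega)] at h1
  exact h1

end compare

end Pool.Agent.H849.LF
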