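import Pool.Agent.H849.LF.Step
import Pool.Agent.H849.LM.Ret

/-!
# Lefschetz maps and characteristic polynomials
-/

set_option autoImplicit false

open Module Polynomial

universe u v

namespace Pool.Agent.H849.LF

open Pool.Agent.Y143 Pool.Agent.H849.EF Pool.Agent.H849.LM Pool.Agent.H849.SEC

variable {Ω : Type u} [Field Ω] [CharZero Ω] {Γ Γ₁ : Type} {N n q : ℕ}

section X

variable (X : SpecialFibre.{u, v} Ω Γ N q) (S : Submodule Ω X.C)

/-- The analogue of the group `kerCoc` modulo `S`. -/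
noncomputable def kerCocMod (i w : ℤ) : Submodule Ω X.C :=
  X.E₁ (i - w) w ⊓ S.comap (X.diff (i - w)) ⊓
    (X.coboundaries (i - (w - 2)) (w - 2) ⊔ S).comap (X.cut (i - w + 2))

/-- The analogue of the coboundaries modulo `S`. -/
noncomputable def bdMod (r w : ℤ) : Submodule Ω X.C := X.E₁ r w ⊓ (X.coboundaries r w ⊔ S)

end X

variable {X : SpecialFibre.{u, v} Ω Γ N q} {Z : SpecialFibre.{u, v} Ω Γ₁ n q}
  {f : PullBacks X.toStrataData Z.toStrataData}

variable (f) in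
/-- The families orthogonal to the image. -/
def vanC : Submodule Ω Z.C where
  carrier := {z | IsVan f z}
  add_mem' hx hy a := Submodule.add_mem _ (hx a) (hy a)
  zero_mem' _ := Submodule.zero_mem _
  smul_mem' c _ hx a := Submodule.smul_mem _ c (hx a)

lemma mem_vanC {z : Z.C} : z ∈ vanC f ↔ IsVan f z := Iff.rfl

variable (hf : IsLefschetzMap n f)
  (hF : ∀ a x, f a (X.act a X.frob x) = Z.act a Z.frob (f a x))

section eq
include hF

omit hF in
lemma frob_surj (Y : SpecialFibre.{u, v} Ω Γ N q) (a : ℕ) (x : Y.H a) :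
    ∃ y, Y.act a Y.frob y = x := by
  have hinj : Function.Injective (Y.act a Y.frob) := by
    intro x y h
    rw [← Y.frob_inv a x, h, Y.frob_inv]
  exact (LinearMap.injective_iff_surjective.1 hinj) x

lemma van_frob {a : ℕ} {z : Z.H a} (hz : z ∈ van f a) : Z.act a Z.frob z ∈ van f a := by
  intro x
  obtain ⟨y, rfl⟩ := frob_surj X a x
  rw [Z.act_pair, hF, Z.frob_inv]
  rw [hz y, mul_zero]

lemma fC_actC (r : ℤ) (x : X.C) : fC f (X.actC r X.frob x) = Z.actC r Z.frob (fC f x) := by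
  have hc : X.cyc X.frob = Z.cyc Z.frob := Units.ext (by rw [X.cyc_frob, Z.cyc_frob])
  funext a
  rw [fC_apply, X.actC_apply, Z.actC_apply, map_smul, hF, hc, fC_apply]

lemma isVan_actC (r : ℤ) {z : Z.C} (hz : IsVan f z) : IsVan f (Z.actC r Z.frob z) := by
  intro a
  rw [Z.actC_apply]
  exact Submodule.smul_mem _ _ (van_frob hF (hz a))

lemma ker_actC (r : ℤ) {x : X.C} (hx : x ∈ LinearMap.ker (fC f)) :
    X.actC r X.frob x ∈ LinearMap.ker (fC f) := by
  rw [LinearMap.mem_ker] at hx ⊢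
  rw [fC_actC hF, hx, map_zero]

end eq

section van
include hf

lemma cut_van (s : ℤ) {z : Z.C} (hz : IsVan f z) : IsVan f (Z.cut s z) := by
  intro a
  by_cases h : InColumn s a
  · rw [Z.cut_of h]
    exact hz a
  · rw [Z.cut_of_not h]
    exact Submodule.zero_mem _

lemma fC_cut (s : ℤ) (x : X.C) : fC f (X.cut s x) = Z.cut s (fC f x) := by
  funext a
  by_cases h : InColumn s a
  · rw [fC_apply, X.cut_of h, Z.cut_of h, fC_apply]
  · rw [fC_apply, X.cut_of_not h, Z.cut_of_not h, map_zero]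

/-- A coboundary orthogonal to the image vanishes. -/
lemma bd_van {r w : ℤ} {z : Z.C} (hz : z ∈ Z.coboundaries r w) (hv : IsVan f z) : z = 0 := by
  obtain ⟨y, hy, rfl⟩ := hz
  obtain ⟨x, hx, hxv⟩ := exists_lift hf hy
  have e : Z.diff (r - 1) y = Z.diff (r - 1) (y - fC f x) + fC f (X.diff (r - 1) x) := by
    rw [map_sub, fC_diff hf]
    abel
  have h0 : Z.diff (r - 1) (y - fC f x) = 0 := by
    have hm : y - fC f x ∈ Z.E₁ (r - 1) w := Submodule.sub_mem _ hy (fC_mem hf hx)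
    by_cases h : r + w = n
    · rw [isVan_zero hf (r := r - 1) (w := w) (by omega) hm hxv, map_zero]
    · exact isVan_zero hf (r := r - 1 + 1) (w := w) (by omega) (Z.diff_mem hm)
        (isVan_diff hf _ hxv)
  rw [e, h0, zero_add] at hv ⊢
  exact fC_eq_zero hf hv

end van

/-- The correspondence between the families of classes. -/
def rel (f : PullBacks X.toStrataData Z.toStrataData) : Submodule Ω (Z.C × X.C) :=
  (vanC f).comap (LinearMap.fst Ω Z.C X.C - fC f ∘ₗ LinearMap.snd Ω Z.C X.C)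

lemma mem_rel {z : Z.C} {x : X.C} : (z, x) ∈ rel f ↔ IsVan f (z - fC f x) := Iff.rfl

section main
include hf hF

lemma rel_actC (r : ℤ) (z : Z.C) (x : X.C) (h : (z, x) ∈ rel f) :
    (Z.actC r Z.frob z, X.actC r X.frob x) ∈ rel f := by
  rw [mem_rel] at h ⊢
  rw [fC_actC hF, ← map_sub]
  exact isVan_actC hF r h

/-- The coboundaries. -/
theorem bd_eq (r w : ℤ) :
    charpolyOn (Z.actC r Z.frob) (Z.coboundaries r w) *
        charpolyOn (X.actC r X.frob) (X.E₁ r w ⊓ LinearMap.ker (fC f)) =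
      charpolyOn (X.actC r X.frob) (bdMod X (LinearMap.ker (fC f)) r w) := by
  have hinf : Infinite Ω := inferInstance
  have h := charpolyOn_quot (T := rel f) (S := Z.coboundaries r w) (S₀ := ⊥)
    (A := bdMod X (LinearMap.ker (fC f)) r w) (B := X.E₁ r w ⊓ LinearMap.ker (fC f))
    (F := Z.actC r Z.frob) (F' := X.actC r X.frob)
    (fun x hx => Z.actC_bd _ _ _ hx) (fun x hx => by
      rw [Submodule.mem_bot] at hx
      rw [hx, map_zero]
      exact Submodule.zero_mem _) ?_ ?_ bot_le ?_ ?_ ?_ ?_ (rel_actC hf hF r)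
  · rw [h, charpolyOn_bot, one_mul]
  · rintro x ⟨hx, hx'⟩
    refine ⟨X.actC_mem _ hx, ?_⟩
    obtain ⟨b, hb, s, hs, rfl⟩ := Submodule.mem_sup.1 hx'
    rw [map_add]
    exact Submodule.add_mem_sup (X.actC_bd _ _ _ hb) (ker_actC hF r hs)
  · rintro x ⟨hx, hx'⟩
    exact ⟨X.actC_mem _ hx, ker_actC hF r hx'⟩
  · rintro x ⟨hx, hx'⟩
    exact ⟨hx, Submodule.mem_sup_right hx'⟩
  · rintro _ ⟨y, hy, rfl⟩
    obtain ⟨x, hx, hxv⟩ := exists_lift hf hy
    refine ⟨X.diff (r - 1) x, ⟨?_, Submodule.mem_sup_left ⟨x, hx, rfl⟩⟩, ?_⟩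
    · have := X.diff_mem hx
      rwa [sub_add_cancel] at this
    · rw [mem_rel, fC_diff hf, ← map_sub]
      exact isVan_diff hf _ hxv
  · rintro x ⟨hx, hx'⟩
    obtain ⟨_, ⟨y, hy, rfl⟩, s, hs, rfl⟩ := Submodule.mem_sup.1 hx'
    refine ⟨Z.diff (r - 1) (fC f y), ⟨fC f y, fC_mem hf hy, rfl⟩, ?_⟩
    rw [mem_rel, map_add, fC_diff hf, LinearMap.mem_ker.1 hs, add_zero, sub_self]
    exact isVan_zero'
  · rintro z hz x ⟨hx, hx'⟩ hzx
    rw [mem_rel] at hzx
    have h1 : fC f x ∈ Z.coboundaries r w := by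
      obtain ⟨_, ⟨y, hy, rfl⟩, s, hs, rfl⟩ := Submodule.mem_sup.1 hx'
      rw [map_add, LinearMap.mem_ker.1 hs, add_zero, fC_diff hf]
      exact ⟨fC f y, fC_mem hf hy, rfl⟩
    have h2 := bd_van hf (Submodule.sub_mem _ hz h1) hzx
    rw [sub_eq_zero] at h2
    rw [Submodule.mem_bot, h2]
    exact ⟨fun h => ⟨hx, h⟩, fun h => h.2⟩

/-- The cocycles whose image under `N` is a coboundary. -/
theorem kerCoc_eq (i w : ℤ) :
    charpolyOn (Z.actC (i - w) Z.frob) (kerCoc Z i w) *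
        charpolyOn (X.actC (i - w) X.frob) (X.E₁ (i - w) w ⊓ LinearMap.ker (fC f)) =
      charpolyOn (Z.actC (i - w) Z.frob) (kerCoc Z i w ⊓ vanC f) *
        charpolyOn (X.actC (i - w) X.frob) (kerCocMod X (LinearMap.ker (fC f)) i w) := by
  have hinf : Infinite Ω := inferInstance
  refine charpolyOn_quot (T := rel f) (fun x hx => kerCoc_stable _ _ _ _ hx) ?_ ?_ ?_
    inf_le_left ?_ ?_ ?_ ?_ (rel_actC hf hF _)
  · rintro x ⟨hx, hx'⟩
    exact ⟨kerCoc_stable _ _ _ _ hx, isVan_actC hF _ hx'⟩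
  · rintro x ⟨⟨hx, hx'⟩, hx''⟩
    refine ⟨⟨X.actC_mem _ hx, ?_⟩, ?_⟩
    · rw [SetLike.mem_coe, Submodule.mem_comap, ← X.diff_actC]
      exact ker_actC hF _ hx'
    · rw [SetLike.mem_coe, Submodule.mem_comap] at hx'' ⊢
      rw [X.cut_actC]
      obtain ⟨b, hb, s, hs, hbs⟩ := Submodule.mem_sup.1 hx''
      rw [← hbs, map_add]
      refine Submodule.add_mem_sup ?_ (ker_actC hF _ hs)
      have h2 := X.actC_bd (i - (w - 2)) (w - 2) X.frob hb
      have h3 := X.actC_shift (i - w) (-1) X.frob b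
      rw [show i - w - 2 * -1 = i - (w - 2) by ring] at h3
      rw [h3] at h2
      exact (Submodule.smul_mem_iff _ (Units.ne_zero _)).1 h2
  · rintro x ⟨hx, hx'⟩
    exact ⟨X.actC_mem _ hx, ker_actC hF _ hx'⟩
  · rintro x ⟨hx, hx'⟩
    refine ⟨⟨hx, ?_⟩, ?_⟩
    · rw [SetLike.mem_coe, Submodule.mem_comap, LinearMap.mem_ker, fC_diff hf,
        LinearMap.mem_ker.1 hx', map_zero]
    · rw [SetLike.mem_coe, Submodule.mem_comap]
      apply Submodule.mem_sup_right
      rw [LinearMap.mem_ker, fC_cut hf, LinearMap.mem_ker.1 hx', map_zero]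
  · rintro z ⟨⟨hz, hz0⟩, y, hy, hyz⟩
    obtain ⟨x, hx, hxv⟩ := exists_lift hf hz
    obtain ⟨y', hy', hyv⟩ := exists_lift hf hy
    refine ⟨x, ⟨⟨hx, ?_⟩, ?_⟩, hxv⟩
    · rw [SetLike.mem_coe, Submodule.mem_comap, LinearMap.mem_ker]
      apply fC_eq_zero hf
      have h1 := isVan_diff hf (i - w) hxv
      rw [map_sub, show Z.diff (i - w) z = 0 from hz0, zero_sub, ← fC_diff hf] at h1
      intro a
      have h2 := Submodule.neg_mem _ (h1 a)
      rwa [Pi.neg_apply, neg_neg] at h2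
    · rw [SetLike.mem_coe, Submodule.mem_comap]
      refine Submodule.mem_sup.2 ⟨X.diff (i - (w - 2) - 1) y', ⟨y', hy', rfl⟩,
        X.cut (i - w + 2) x - X.diff (i - (w - 2) - 1) y', ?_, by abel⟩
      rw [LinearMap.mem_ker]
      apply fC_eq_zero hf
      have h1 := isVan_diff hf (i - (w - 2) - 1) hyv
      have h2 := cut_van hf (i - w + 2) hxv
      have h3 := h1.sub h2
      have h4 : Z.diff (i - (w - 2) - 1) (y - fC f y') - Z.cut (i - w + 2) (z - fC f x) =
          fC f (X.cut (i - w + 2) x - X.diff (i - (w - 2) - 1) y') := by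
        rw [map_sub, map_sub, map_sub, fC_diff hf, fC_cut hf, hyz]
        abel
      rwa [h4] at h3
  · rintro x ⟨⟨hx, hx'⟩, hx''⟩
    rw [SetLike.mem_coe, Submodule.mem_comap] at hx' hx''
    refine ⟨fC f x, ⟨⟨fC_mem hf hx, ?_⟩, ?_⟩, ?_⟩
    · rw [SetLike.mem_coe, LinearMap.mem_ker, ← fC_diff hf, LinearMap.mem_ker.1 hx']
    · rw [SetLike.mem_coe, Submodule.mem_comap, ← fC_cut hf]
      obtain ⟨_, ⟨y, hy, rfl⟩, s, hs, hbs⟩ := Submodule.mem_sup.1 hx''
      rw [← hbs, map_add, LinearMap.mem_ker.1 hs, add_zero, fC_diff hf]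
      exact ⟨fC f y, fC_mem hf hy, rfl⟩
    · rw [mem_rel, sub_self]
      exact isVan_zero'
  · rintro z hz x ⟨⟨hx, -⟩, -⟩ hzx
    rw [mem_rel] at hzx
    constructor
    · rintro ⟨-, hzv⟩
      refine ⟨hx, ?_⟩
      rw [SetLike.mem_coe, LinearMap.mem_ker]
      apply fC_eq_zero hf
      have h1 := IsVan.sub hzv hzx
      rwa [sub_sub_cancel] at h1
    · rintro ⟨-, hx0⟩
      rw [SetLike.mem_coe, LinearMap.mem_ker] at hx0
      rw [hx0, sub_zero] at hzx
      exact ⟨hz, hzx⟩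

/-- The strata. -/
theorem middle_eq (a : ℕ) (m : ℤ) :
    charpolyOn (Z.act a Z.frob) (Z.gr a m) *
        charpolyOn (X.act a X.frob) (X.gr a m ⊓ LinearMap.ker (f a)) =
      charpolyOn (Z.act a Z.frob) (Z.gr a m ⊓ van f a) *
        charpolyOn (X.act a X.frob) (X.gr a m) := by
  have hinf : Infinite Ω := inferInstance
  refine charpolyOn_quot
    (T := (van f a).comap (LinearMap.fst Ω (Z.H a) (X.H a) - f a ∘ₗ LinearMap.snd Ω (Z.H a) (X.H a)))
    (fun x hx => Z.act_gr _ _ _ _ hx) ?_ (fun x hx => X.act_gr _ _ _ _ hx) ?_ inf_le_left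
    inf_le_left ?_ ?_ ?_ ?_
  · rintro x ⟨hx, hx'⟩
    exact ⟨Z.act_gr _ _ _ _ hx, van_frob hF hx'⟩
  · rintro x ⟨hx, hx'⟩
    refine ⟨X.act_gr _ _ _ _ hx, ?_⟩
    rw [SetLike.mem_coe, LinearMap.mem_ker] at hx' ⊢
    rw [hF, hx', map_zero]
  · intro z hz
    obtain ⟨x, hx, hxv⟩ := exists_dec hf hz
    exact ⟨x, hx, hxv⟩
  · intro x hx
    refine ⟨f a x, LM.pull_gr hf hx, ?_⟩
    show f a x - f a x ∈ van f a
    rw [sub_self]
    exact Submodule.zero_mem _
  · intro z hz x hx hzx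
    have hzx' : z - f a x ∈ van f a := hzx
    constructor
    · rintro ⟨-, hzv⟩
      refine ⟨hx, ?_⟩
      rw [SetLike.mem_coe, LinearMap.mem_ker]
      apply LM.pull_eq_zero hf
      have h1 := Submodule.sub_mem _ hzv hzx'
      rwa [sub_sub_cancel] at h1
    · rintro ⟨-, hx0⟩
      rw [SetLike.mem_coe, LinearMap.mem_ker] at hx0
      rw [hx0, sub_zero] at hzx'
      exact ⟨hz, hzx'⟩
  · intro z x hzx
    have hzx' : z - f a x ∈ van f a := hzx
    show Z.act a Z.frob z - f a (X.act a X.frob x) ∈ van f a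
    rw [hF, ← map_sub]
    exact van_frob hF hzx'

end main

end Pool.Agent.H849.LF
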