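import Pool.Agent.H849.LF.Wt

/-!
# The contribution of one weight to the kernel of `N`
-/

set_option autoImplicit false

open Module Polynomial

universe u v

namespace Pool.Agent.H849.LF

open Pool.Agent.Y143 Pool.Agent.H849.EF

variable {Ω : Type u} [Field Ω] [CharZero Ω] {Γ : Type} {n q : ℕ}

section fibre

variable (Y : SpecialFibre.{u, v} Ω Γ n q)

/-- The cocycles of total degree `i` and weight `w` whose image under `N` is a coboundary. -/
noncomputable def kerCoc (i w : ℤ) : Submodule Ω Y.C :=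
  Y.cocycles (i - w) w ⊓ (Y.coboundaries (i - (w - 2)) (w - 2)).comap (Y.cut (i - w + 2))

lemma zc_stable (r w : ℤ) (g : Γ) {x : Y.C} (hx : x ∈ Y.cocycles r w) :
    Y.actC r g x ∈ Y.cocycles r w := by
  refine ⟨Y.actC_mem g hx.1, ?_⟩
  rw [SetLike.mem_coe, LinearMap.mem_ker, ← Y.diff_actC, show Y.diff r x = 0 from hx.2, map_zero]

lemma kerCoc_stable (i w : ℤ) (g : Γ) {x : Y.C} (hx : x ∈ kerCoc Y i w) :
    Y.actC (i - w) g x ∈ kerCoc Y i w := by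
  refine ⟨zc_stable Y _ _ g hx.1, ?_⟩
  have h1 : Y.cut (i - w + 2) x ∈ Y.coboundaries (i - (w - 2)) (w - 2) := hx.2
  rw [SetLike.mem_coe, Submodule.mem_comap, Y.cut_actC]
  have h2 := Y.actC_bd (i - (w - 2)) (w - 2) g h1
  have h3 := Y.actC_shift (i - w) (-1) g (Y.cut (i - w + 2) x)
  rw [show i - w - 2 * -1 = i - (w - 2) by ring] at h3
  rw [h3] at h2
  exact (Submodule.smul_mem_iff _ (Units.ne_zero _)).1 h2

end fibre

variable (Z : SemistableModel.{u, v} Ω Γ n q)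

lemma N_W {i : ℕ} {w : ℤ} {v : Z.V i} (hv : v ∈ Z.W i w) : Z.N i v ∈ Z.W i (w - 2) := by
  obtain ⟨x, hx⟩ := Z.sp_left i w v hv
  exact (Z.sp_mem i _ _ _ (Z.sp_N i _ _ _ hx)).1

lemma bd_le_kerCoc (i : ℕ) (w : ℤ) :
    Z.coboundaries (i - w) w ≤ kerCoc Z.toSpecialFibre i w := by
  intro x hx
  refine ⟨Z.bd_le_zc _ _ hx, ?_⟩
  obtain ⟨v, hv⟩ := Z.sp_right i w x (Z.bd_le_zc _ _ hx)
  have h1 := N_W Z ((Z.sp_ker i _ _ _ hv).2 hx)
  exact (Z.sp_ker i _ _ _ (Z.sp_N i _ _ _ hv)).1 (Z.W_cast (by ring) h1)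

/-- The vectors of weight at most `w` killed by `N`. -/
noncomputable def kerW (i : ℕ) (w : ℤ) : Submodule Ω (Z.V i) := LinearMap.ker (Z.N i) ⊓ Z.W i w

/-- The relation between `W_w` and the families of classes, up to coboundaries. -/
def spB (i : ℕ) (w : ℤ) : Submodule Ω (Z.V i × Z.C) where
  carrier := {p | ∃ b ∈ Z.coboundaries (i - w) w, (p.1, p.2 - b) ∈ Z.sp i w}
  add_mem' := by
    rintro ⟨v, x⟩ ⟨v', x'⟩ ⟨b, hb, h⟩ ⟨b', hb', h'⟩
    refine ⟨b + b', Submodule.add_mem _ hb hb', ?_⟩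
    have := Submodule.add_mem _ h h'
    rw [Prod.mk_add_mk, sub_add_sub_comm] at this
    exact this
  zero_mem' := ⟨0, Submodule.zero_mem _, by
    have : ((0 : Z.V i), (0 : Z.C) - 0) ∈ Z.sp i w := by
      rw [sub_zero]
      exact Submodule.zero_mem _
    exact this⟩
  smul_mem' := by
    rintro c ⟨v, x⟩ ⟨b, hb, h⟩
    refine ⟨c • b, Submodule.smul_mem _ _ hb, ?_⟩
    have := Submodule.smul_mem _ c h
    rw [Prod.smul_mk, smul_sub] at this
    exact this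

variable {Z}

lemma mem_spB {i : ℕ} {w : ℤ} {v : Z.V i} {x : Z.C} :
    (v, x) ∈ spB Z i w ↔ ∃ b ∈ Z.coboundaries (i - w) w, (v, x - b) ∈ Z.sp i w := Iff.rfl

variable {i : ℕ}
  (hN : ∀ v, Z.N i (Z.actV i Z.frob v) = (q : Ω) • Z.actV i Z.frob (Z.N i v))

lemma W_frob {w : ℤ} {v : Z.V i} (hv : v ∈ Z.W i w) : Z.actV i Z.frob v ∈ Z.W i w := by
  obtain ⟨x, hx⟩ := Z.sp_left i w v hv
  exact (Z.sp_mem i _ _ _ (Z.sp_act i w v x Z.frob hx)).1

include hN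

lemma kerW_stable {w : ℤ} {v : Z.V i} (hv : v ∈ kerW Z i w) : Z.actV i Z.frob v ∈ kerW Z i w := by
  refine ⟨?_, W_frob hv.2⟩
  rw [SetLike.mem_coe, LinearMap.mem_ker, hN, show Z.N i v = 0 from hv.1, map_zero, smul_zero]

/-- The contribution of the weight `w`. -/
theorem kerW_step [IsAlgClosed Ω] (hq : 1 < q) (w : ℤ) :
    charpolyOn (Z.actV i Z.frob) (kerW Z i w) *
        charpolyOn (Z.actC (i - w) Z.frob) (Z.coboundaries (i - w) w) =
      charpolyOn (Z.actV i Z.frob) (kerW Z i (w - 1)) *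
        charpolyOn (Z.actC (i - w) Z.frob) (kerCoc Z.toSpecialFibre i w) := by
  have hfin := Pool.Agent.R942.WB.finite_V Z i
  have hinf : Infinite Ω := inferInstance
  refine charpolyOn_quot (T := spB Z i w) (fun x hx => kerW_stable hN hx)
    (fun x hx => kerW_stable hN hx) (fun x hx => kerCoc_stable _ _ _ _ hx)
    (fun x hx => Z.actC_bd _ _ _ hx) ?_ (bd_le_kerCoc Z _ _) ?_ ?_ ?_ ?_
  · exact inf_le_inf_left _ (Z.W_mono i (by omega))
  · rintro v ⟨hv0, hv⟩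
    obtain ⟨x, hx⟩ := Z.sp_left i w v hv
    refine ⟨x, ⟨(Z.sp_mem i _ _ _ hx).2, ?_⟩, 0, Submodule.zero_mem _, by rwa [sub_zero]⟩
    have h1 := Z.sp_N i _ _ _ hx
    rw [show Z.N i v = 0 from hv0] at h1
    exact (Z.sp_ker i _ _ _ h1).1 (Submodule.zero_mem _)
  · rintro x ⟨hx, hx'⟩
    obtain ⟨v, hv⟩ := Z.sp_right i w x hx
    have h1 := Z.sp_N i _ _ _ hv
    have h2 := (Z.sp_ker i _ _ _ h1).2 hx'
    obtain ⟨u, hu, hu0⟩ := exists_corr hq hN (Z.sp_mem i _ _ _ hv).1 (Z.W_cast (by ring) h2)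
    have hu' : u ∈ Z.W i w := Z.W_mono i (by omega) hu
    obtain ⟨y, hy⟩ := Z.sp_left i w u hu'
    refine ⟨v - u, ⟨hu0, Submodule.sub_mem _ (Z.sp_mem i _ _ _ hv).1 hu'⟩, y,
      (Z.sp_ker i _ _ _ hy).1 hu, ?_⟩
    have := Submodule.sub_mem _ hv hy
    rwa [Prod.mk_sub_mk] at this
  · rintro v ⟨hv0, hv⟩ x _ ⟨b, hb, hvb⟩
    have h1 := Z.sp_ker i _ _ _ hvb
    have h2 : x - b ∈ Z.coboundaries (i - w) w ↔ x ∈ Z.coboundaries (i - w) w := by
      refine ⟨fun h => ?_, fun h => Submodule.sub_mem _ h hb⟩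
      have := Submodule.add_mem _ h hb
      rwa [sub_add_cancel] at this
    rw [← h2, ← h1]
    exact ⟨fun h => h.2, fun h => ⟨hv0, h⟩⟩
  · rintro v x ⟨b, hb, hvb⟩
    refine ⟨Z.actC (i - w) Z.frob b, Z.actC_bd _ _ _ hb, ?_⟩
    have h1 := Z.sp_act i w v (x - b) Z.frob hvb
    rw [map_sub] at h1
    exact h1

end Pool.Agent.H849.LF
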