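import Pool.Graph.R_pool_sql_team_seeded_b0a926ef.R942.WB.Count
import Pool.Agent.H849.LF.Lin

/-!
# The weights of the Frobenius split the weight filtration
-/

set_option autoImplicit false

open Module Polynomial

universe u v

namespace Pool.Agent.H849.LF

open Pool.Agent.Y143

section

variable {Ω : Type u} [Field Ω]

lemma aeval_comm {V : Type*} {V' : Type*} [AddCommGroup V] [Module Ω V] [AddCommGroup V']
    [Module Ω V'] {N : V →ₗ[Ω] V'} {F : Module.End Ω V} {F' : Module.End Ω V'}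
    (h : ∀ x, N (F x) = F' (N x)) (R : Polynomial Ω) (x : V) :
    N (aeval F R x) = aeval F' R (N x) := by
  induction R using Polynomial.induction_on' generalizing x with
  | add p r hp hr => rw [map_add, LinearMap.add_apply, map_add, hp, hr, map_add,
      LinearMap.add_apply]
  | monomial k a =>
    have hk : ∀ (k : ℕ) (x : V), N ((F ^ k) x) = (F' ^ k) (N x) := by
      intro k
      induction k with
      | zero => intro x; rfl
      | succ k ih => intro x; rw [pow_succ, Module.End.mul_apply, ih, h, pow_succ,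
          Module.End.mul_apply]
    rw [aeval_monomial, aeval_monomial, Module.End.mul_apply, Module.End.mul_apply,
      Module.algebraMap_end_apply, Module.algebraMap_end_apply, map_smul, hk]

/-- A polynomial which maps `A` to `B` and has only eigenvalues on `A / B` as roots. -/
lemma exists_poly {V : Type v} [AddCommGroup V] [Module Ω V] [FiniteDimensional Ω V]
    {F : Module.End Ω V} {A B : Submodule Ω V} (hA : ∀ x ∈ A, F x ∈ A) (hB : ∀ x ∈ B, F x ∈ B) :
    ∃ P : Polynomial Ω, (∀ x ∈ A, aeval F P x ∈ B) ∧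
      ∀ α : Ω, P.IsRoot α → ∃ x ∈ A, x ∉ B ∧ F x - α • x ∈ B := by
  let B' : Submodule Ω A := B.comap A.subtype
  let f : Module.End Ω A := F.restrict hA
  have hB' : B' ≤ B'.comap f := fun x hx => hB _ hx
  let g : Module.End Ω (A ⧸ B') := B'.mapQ B' f hB'
  refine ⟨minpoly Ω g, fun x hx => ?_, fun α hα => ?_⟩
  · have h1 : B'.mkQ (aeval f (minpoly Ω g) ⟨x, hx⟩) = aeval g (minpoly Ω g) (B'.mkQ ⟨x, hx⟩) :=
      aeval_comm (N := B'.mkQ) (F := f) (F' := g) (fun _ => rfl) _ _
    rw [minpoly.aeval, LinearMap.zero_apply, Submodule.mkQ_apply,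
      Submodule.Quotient.mk_eq_zero] at h1
    have h2 : A.subtype (aeval f (minpoly Ω g) ⟨x, hx⟩) = aeval F (minpoly Ω g) x :=
      aeval_comm (N := A.subtype) (F := f) (F' := F) (fun _ => rfl) _ _
    rw [← h2]
    exact h1
  · have h1 : Module.End.HasEigenvalue g α := Module.End.hasEigenvalue_of_isRoot hα
    obtain ⟨y, hy⟩ := h1.exists_hasEigenvector
    obtain ⟨x, rfl⟩ := B'.mkQ_surjective y
    refine ⟨x, x.2, fun h => hy.2 ?_, ?_⟩
    · rw [Submodule.mkQ_apply, Submodule.Quotient.mk_eq_zero]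
      exact h
    · have h2 : B'.mkQ (f x - α • x) = 0 := by
        rw [map_sub, map_smul, sub_eq_zero]
        exact hy.apply_eq_smul
      rw [Submodule.mkQ_apply, Submodule.Quotient.mk_eq_zero] at h2
      exact h2

end

section

variable {Ω : Type u} [Field Ω] [CharZero Ω]

/-- The weight of a Weil number is determined. -/
lemma weight_unique {q : ℕ} (hq : 1 < q) {w w' : ℤ} {α : Ω} (h : IsWeilNumber q w α)
    (h' : IsWeilNumber q w' α) : w = w' := by
  have hint : IsIntegral ℚ α := h.1.isIntegral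
  have hdeg : (minpoly ℚ α).degree ≠ 0 := (minpoly.degree_pos hint).ne'
  obtain ⟨z, hz⟩ := IsAlgClosed.exists_aeval_eq_zero ℂ (minpoly ℚ α) hdeg
  have h1 := h.2 z hz
  rw [h'.2 z hz] at h1
  have hq' : (1 : ℝ) < q := by exact_mod_cast hq
  have h2 := (Real.rpow_right_inj (by positivity) hq'.ne').1 h1
  have h3 : (w' : ℝ) = w := by linarith
  exact_mod_cast h3.symm

variable {Γ : Type} {n q : ℕ} (Z : SemistableModel.{u, v} Ω Γ n q)

lemma exists_exact {i : ℕ} {w : ℤ} {y : Z.V i} (hy : y ≠ 0) (hw : y ∈ Z.W i w) :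
    ∃ w' ≤ w, y ∈ Z.W i w' ∧ y ∉ Z.W i (w' - 1) := by
  by_contra hcon
  push Not at hcon
  have key : ∀ k : ℕ, y ∈ Z.W i (w - k) := by
    intro k
    induction k with
    | zero => rwa [Nat.cast_zero, sub_zero]
    | succ k ih =>
      have := hcon (w - k) (by omega) ih
      rwa [show w - (k : ℤ) - 1 = w - ((k + 1 : ℕ) : ℤ) by push_cast; ring] at this
  obtain ⟨b, hb⟩ := Z.W_bot i
  have h1 := Z.W_mono i (show w - ((w - b).toNat : ℤ) ≤ b by
    have := Int.self_le_toNat (w - b)
    omega) (key (w - b).toNat)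
  rw [hb] at h1
  exact hy h1

variable {Z} [IsAlgClosed Ω]

/-- The vectors of weight `w` killed by `N` modulo lower weights lift to the kernel of `N`. -/
theorem exists_corr (hq : 1 < q) {i : ℕ}
    (hN : ∀ v, Z.N i (Z.actV i Z.frob v) = (q : Ω) • Z.actV i Z.frob (Z.N i v)) {w : ℤ}
    {v : Z.V i} (hv : v ∈ Z.W i w) (h : Z.N i v ∈ Z.W i (w - 3)) :
    ∃ u ∈ Z.W i (w - 1), Z.N i (v - u) = 0 := by
  have hfin := Pool.Agent.R942.WB.finite_V Z i
  have hqΩ : (q : Ω) ≠ 0 := Nat.cast_ne_zero.2 (by omega)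
  have hW : ∀ (w : ℤ), ∀ x ∈ Z.W i w, Z.actV i Z.frob x ∈ Z.W i w := by
    intro w x hx
    obtain ⟨y, hy⟩ := Z.sp_left i w x hx
    exact (Z.sp_mem i _ _ _ (Z.sp_act i w x y Z.frob hy)).1
  set F := Z.actV i Z.frob with hF
  obtain ⟨P, hP, hPr⟩ := exists_poly (hW w) (hW (w - 1))
  obtain ⟨Q, hQ, hQr⟩ := exists_poly (F := (q : Ω) • F) (A := Z.W i (w - 3)) (B := ⊥)
    (fun x hx => Submodule.smul_mem _ _ (hW _ x hx)) (fun x hx => by
      rw [Submodule.mem_bot] at hx
      rw [hx, map_zero]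
      exact Submodule.zero_mem _)
  have hcop : IsCoprime P Q := by
    refine (Polynomial.isCoprime_iff_aeval_ne_zero_of_isAlgClosed (k := Ω) Ω P Q).2 ?_
    intro α
    by_contra hcon
    push Not at hcon
    obtain ⟨h1, h2⟩ := hcon
    obtain ⟨x, hx, hx', hxα⟩ := hPr α (by rwa [IsRoot.def, ← coe_aeval_eq_eval])
    obtain ⟨y, hy, hy', hyα⟩ := hQr α (by rwa [IsRoot.def, ← coe_aeval_eq_eval])
    have h3 := Pool.Agent.R942.WM.weil_W Z i w hx hx' hxα
    rw [Submodule.mem_bot] at hyα hy'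
    obtain ⟨w', hw', hyw, hyw'⟩ := exists_exact Z hy' hy
    have h4 : F y - ((q : Ω)⁻¹ * α) • y = 0 := by
      have h5 : (q : Ω)⁻¹ • (((q : Ω) • F) y - α • y) = 0 := by rw [hyα, smul_zero]
      rwa [LinearMap.smul_apply, smul_sub, smul_smul, smul_smul, inv_mul_cancel₀ hqΩ,
        one_smul] at h5
    have h5 := Pool.Agent.R942.WM.weil_W Z i w' hyw hyw' (by
      rw [← hF, h4]
      exact Submodule.zero_mem _)
    have h6 := h5.twist (by omega) 1
    rw [zpow_one, mul_inv_cancel_left₀ hqΩ] at h6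
    have h7 := weight_unique hq h3 h6
    omega
  obtain ⟨a, b, hab⟩ := hcop
  refine ⟨aeval F (a * P) v, ?_, ?_⟩
  · rw [map_mul, Module.End.mul_apply]
    have h1 : ∀ x ∈ Z.W i (w - 1), aeval F a x ∈ Z.W i (w - 1) := by
      intro x hx
      have h2 : (Z.W i (w - 1)).subtype (aeval (F.restrict (hW (w - 1))) a ⟨x, hx⟩) =
          aeval F a x :=
        aeval_comm (N := (Z.W i (w - 1)).subtype) (F := F.restrict (hW (w - 1))) (F' := F)
          (fun _ => rfl) _ _
      rw [← h2]
      exact Subtype.coe_prop _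
    exact h1 _ (hP v hv)
  · have h1 : v - aeval F (a * P) v = aeval F (b * Q) v := by
      have h2 : aeval F (a * P + b * Q) v = v := by rw [hab, map_one, Module.End.one_apply]
      rw [map_add, LinearMap.add_apply] at h2
      rw [sub_eq_iff_eq_add, add_comm]
      exact h2.symm
    rw [h1, aeval_comm (F' := (q : Ω) • F) (fun x => by rw [hN, LinearMap.smul_apply]), map_mul,
      Module.End.mul_apply, (Submodule.mem_bot Ω).1 (hQ _ h), map_zero]

end

end Pool.Agent.H849.LF
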